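import Pool.Agent.helper14.QF.Inst
import Pool.Agent.helper31.IC.EngD
import Pool.Agent.helper71.FF.Real

/-!
# Programs with a row of constants

`common r` is a program whose constants are taken from a row `r : R`; the table of the rows is a
binary trie `T : BT R`.  A leaf of a subdivision tree names the row that is used there.  The cover
says: at every point of the box one of the programs `common r`, `r` a row of the table, asserts.
-/

namespace Pool.Agent.helper14.RW

open Complex
open Pool.Agent.helper31.IA (Z Op get Asserts Small RealL InBox lo hi canSplit)
open Pool.Agent.helper31.IC (Ops Laws runG runG_sound TD CovD covD_split)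
open Pool.Agent.helper14.QF (opsF okF lawsF_mem)

/-- table of rows: binary trie, the index is read from the lowest bit -/
inductive BT (R : Type) where
  | l (r : R)
  | n (a b : BT R)

variable {R : Type}

def BT.get : BT R → Nat → R
  | .l r, _ => r
  | .n a b, k => bif Nat.beq (Nat.mod k 2) 0 then a.get (Nat.div k 2) else b.get (Nat.div k 2)

/-- the rows of the table -/
def BT.rows : BT R → List R
  | .l r => [r]
  | .n a b => a.rows ++ b.rows

/-- check of all rows -/
def BT.all (p : R → Bool) : BT R → Bool
  | .l r => p r
  | .n a b => a.all p && b.all p

theorem BT.get_mem (T : BT R) (k : Nat) : T.get k ∈ T.rows := by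
  induction T generalizing k with
  | l r => exact List.mem_singleton.2 rfl
  | n a b iha ihb =>
    show (bif Nat.beq (Nat.mod k 2) 0 then a.get (Nat.div k 2) else b.get (Nat.div k 2)) ∈
      a.rows ++ b.rows
    cases Nat.beq (Nat.mod k 2) 0 with
    | true => exact List.mem_append_left _ (iha _)
    | false => exact List.mem_append_right _ (ihb _)

theorem BT.all_rows {p : R → Bool} {T : BT R} (h : T.all p = true) : ∀ r ∈ T.rows, p r = true := by
  induction T with
  | l r =>
    intro s hs
    rw [List.mem_singleton.1 hs]
    exact h
  | n a b iha ihb =>
    have h' := (Bool.and_eq_true _ _).mp h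
    intro s hs
    rcases List.mem_append.1 hs with hs | hs
    · exact iha h'.1 s hs
    · exact ihb h'.2 s hs

/-- the programs of the table -/
def progs (common : R → List Op) (T : BT R) : List (List Op) := T.rows.map common

def verifyR (O : Ops) (okBox : List (Nat × Nat) → Nat → Bool) (nd : Nat)
    (chk : R → List O.α → Bool) (T : BT R) : TD → List (Nat × Nat) → Bool
  | TD.l k, box => okBox box nd && chk (T.get k) (O.models box nd)
  | TD.n i a b, box => canSplit i box && verifyR O okBox nd chk T a (lo i box) &&
      verifyR O okBox nd chk T b (hi i box)

private theorem length_lo : ∀ (i : Nat) (box : List (Nat × Nat)), (lo i box).length = box.length := by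
  intro i box
  induction box generalizing i with
  | nil => cases i <;> rfl
  | cons x t ih =>
    cases i with
    | zero => rfl
    | succ n => exact congrArg Nat.succ (ih n)

private theorem length_hi : ∀ (i : Nat) (box : List (Nat × Nat)), (hi i box).length = box.length := by
  intro i box
  induction box generalizing i with
  | nil => cases i <;> rfl
  | cons x t ih =>
    cases i with
    | zero => rfl
    | succ n => exact congrArg Nat.succ (ih n)

theorem covD_of_verifyR {O : Ops} (L : Laws O) {nr nd : Nat} {common : R → List Op}
    {chk : R → List O.α → Bool}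
    (hchk : ∀ r m, chk r m = true → runG O nr (common r) m = true) (T : BT R) :
    ∀ (t : TD) (box : List (Nat × Nat)), box.length = nr →
      verifyR O L.okBox nd chk T t box = true → CovD nd (progs common T) box := by
  intro t
  induction t with
  | l k =>
    intro box hlen h
    have h' := (Bool.and_eq_true _ _).mp h
    intro u x hu hx hs
    obtain ⟨ε, hε, hr, hm⟩ := L.models box nd u x h'.1 hu hx hs
    rw [hlen] at hr
    exact ⟨common (T.get k), List.mem_map_of_mem (T.get_mem k),
      runG_sound L hε hr _ _ _ hm (hchk _ _ h'.2)⟩
  | n i a b iha ihb =>
    intro box hlen h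
    simp only [verifyR, Bool.and_eq_true] at h
    exact covD_split i h.1.1
      (iha _ ((length_lo i box).trans hlen) h.1.2) (ihb _ ((length_hi i box).trans hlen) h.2)

/-- **The engine QF with rows.** -/
theorem covR_F {nr nd : Nat} {common : R → List Op} {chk : R → List opsF.α → Bool}
    (hchk : ∀ r m, chk r m = true → runG opsF nr (common r) m = true) (T : BT R)
    (t : TD) (box : List (Nat × Nat)) (hb : box.length = nr)
    (h : verifyR opsF okF nd chk T t box = true) : CovD nd (progs common T) box := by
  obtain ⟨L, -, hok⟩ := lawsF_mem
  refine covD_of_verifyR L hchk T t box hb ?_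
  rw [hok]
  exact h

open Pool.Agent.helper71.FF (RAs rOK ras_of)

/-- **Real form.** -/
theorem ras_rows {common : R → List Op} (hok : ∀ r, (common r).all rOK = true) {T : BT R}
    {box : List (Nat × Nat)} (h : CovD 0 (progs common T) box) {u : List ℝ} (hu : InBox box u) :
    ∃ r ∈ T.rows, RAs (common r) u := by
  obtain ⟨ops, ho, ha⟩ := h u [] hu rfl (by simp)
  rw [List.append_nil] at ha
  obtain ⟨r, hr, rfl⟩ := List.mem_map.1 ho
  exact ⟨r, hr, ras_of _ u (hok r) ha⟩

end Pool.Agent.helper14.RW
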